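import Pool.Agent.Y156.J.Main

/-!
# Small points on Galois covers of curves of genus at most one

Szpiro's small points conjecture holds for all curves `X` over number fields such that the quotient of `X`
by its geometric automorphism group has genus at most one (Galois covers of the projective line and of
curves of genus one, for instance all bielliptic curves), and also for the curves that are obtained from
these by finitely many geometrically unramified Galois covers. Known: cyclic covers of prime degree of
the projective line (Javanpykar and von Kaenel).

The abelian varieties, curves, heights, Belyi degrees and quotients are given by their known properties
(`IsShaf` and `HasSmallPoints`).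
-/

set_option autoImplicit false

namespace Pool.Agent.Results.MP_fe3691_nt.CoversOfGenusAtMostOne

open Pool.Agent.Y156.J

/-- Small points on Galois covers of curves of genus at most one and on their unramified Galois covers. -/
theorem result (D : ShafData) (hD : IsShaf D) (hs : HasSmallPoints D) :
    SmallPoints D (IsGaloisCover D) ∧ ∀ m : ℕ, SmallPoints D (EtaleTower D m) :=
  ⟨smallPoints_of hs (effBounded_galois hD),
    fun m => smallPoints_of hs (effBounded_of_belyi hD (belyiBounded_tower hD m))⟩

end Pool.Agent.Results.MP_fe3691_nt.CoversOfGenusAtMostOne
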