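import Pool.Agent.Y156.J.Main

/-!
# Small points on curves with partitioned group actions

Let `P` be a class of curves for which the effective Shafarevich conjecture holds.

1. The small points conjecture holds for the curves `X` with an action of a finite group `G` (over `ℚ̄`)
  that has a partition into subgroups `H j` (elementary abelian, dihedral, Frobenius groups, `PSL(2, q)`,
  ...), such that `X / G` and the curves `X / H j` are in `P` or of genus zero.
2. More generally, it holds for the curves such that the multiplication by some `N ≥ 1` on the Jacobian
  of `X` is a sum of endomorphisms that factor over the Jacobians of quotients `X / H j` in `P` (with `N`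
  and the number of terms effectively bounded in terms of the genus).
3. In particular it holds for the classes obtained in finitely many steps as in the first part from the
  unramified Galois covers (`EtaleTower`) of Galois covers of curves of genus at most one.

The abelian varieties, curves, heights, Belyi degrees and quotients are given by their known properties
(`IsShaf` and `HasSmallPoints`).
-/

set_option autoImplicit false

namespace Pool.Agent.Results.MP_fe3691_nt.PartitionedActions

open Pool.Agent.Y156.J

/-- Small points on the curves with a partitioned group action. -/
theorem result (D : ShafData) (hD : IsShaf D) (hs : HasSmallPoints D) :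
    (∀ P : D.C → Prop, EffBounded D P →
      SmallPoints D fun X => 2 ≤ D.genus X → Partitioned D P X) ∧
    (∀ (P : D.C → Prop) (R : ℕ → ℕ), Computable R → EffBounded D P →
      SmallPoints D fun X => 2 ≤ D.genus X → Decomposed D P R X) ∧
    (∀ m n : ℕ, SmallPoints D (Tower D m n)) :=
  ⟨fun _ hP => smallPoints_of hs (effBounded_partitioned hD hP),
    fun _ _ hR hP => smallPoints_of hs (effBounded_decomposed hD hP hR),
    fun m n => smallPoints_of hs (effBounded_tower hD m n)⟩

end Pool.Agent.Results.MP_fe3691_nt.PartitionedActions
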